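import Pool.Agent.R640.WrFG

/-!
# An uncountable chain of quasi-parabolic structures on `ℤ ≀ ℤ` (MP_6b630c_al)

`ℤ ≀ ℤ` is written as `Wr (Multiplicative ℤ)`: the semidirect product of the group of finitely
supported functions from `ℤ` to the (multiplicatively written) infinite cyclic group by the
infinite cyclic group `⟨t⟩` acting by shifts.

For a real number `s` let `B_s` be the group of the finitely supported functions `f` for which
`f (-j)` is divisible by `2 ^ ⌊exp s * j⌋` for all `j ≥ 0`. Then `t B_s t⁻¹ ⊊ B_s` and the groups
`t⁻ᵏ B_s tᵏ` exhaust the base group, so `B_s ∪ {t}` is quasi-parabolic (the group acts on the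
Bass-Serre tree of an ascending HNN extension). For `s < s'` we have `B_s' ⊊ B_s`, and the structures
are not equivalent since `exp s' * (j - m) - exp s * j → ∞` for every `m`.
-/

set_option autoImplicit false

namespace Pool.Agent.Results.MP_6b630c_al.UncountableChain

open Pool.Agent.R640

/-- The poset of quasi-parabolic structures on `ℤ ≀ ℤ` contains a chain which is order-isomorphic
to the real line; this chain is uncountable. -/
theorem result : ∃ f : ℝ ↪o Hqp (Wr (Multiplicative ℤ)),
    IsChain (· ≤ ·) (Set.range f) ∧ ¬ (Set.range f).Countable := by
  obtain ⟨f⟩ := chain_embedding twoPow_strictAnti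
  exact ⟨f, range_uncountable f⟩

end Pool.Agent.Results.MP_6b630c_al.UncountableChain
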